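import Pool.Agent.Helper44.CM.Defs

/-!
# Project MM: difference quotients (block DIFFQ)

Functions with polynomially growing Hoelder bounds, and the difference quotient lemma: if all
difference quotients of `G` are bounded and Hoelder continuous, with polynomially growing
constants, then `G` is continuously differentiable, and the derivatives obey the same bounds.
-/

set_option autoImplicit false

open Filter Topology

namespace CM

variable {n : ℕ}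

/-- Polynomially bounded and locally Hoelder continuous of exponent `1/2` with polynomially
growing constants. -/
def PH (C : ℝ) (q : ℕ) (f : E n → ℝ) : Prop :=
  (∀ x, |f x| ≤ C * (1 + ‖x‖) ^ q) ∧
    ∀ x y, dist x y ≤ 1 → |f x - f y| ≤ C * (1 + ‖x‖) ^ q * Real.sqrt (dist x y)

/-- Bounds for all difference quotients. -/
def PQ (C : ℝ) (q : ℕ) (G : E n → ℝ) : Prop :=
  ∀ d : E n, ‖d‖ ≤ 1 → PH (C * ‖d‖) q fun x => G (x + d) - G x

/-- The dyadic quotients converge. -/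
theorem pq_conv {C : ℝ} {q : ℕ} {G : E n → ℝ} (hC : 0 ≤ C) (hG : PQ C q G) (x v : E n)
    (hv : ‖v‖ ≤ 1) :
    ∃ l : ℝ, Tendsto (fun m : ℕ => (2 : ℝ) ^ m * (G (x + (1 / 2 : ℝ) ^ m • v) - G x)) atTop
        (𝓝 l) ∧
      |G (x + v) - G x - l| ≤ 4 * C * (1 + ‖x‖) ^ q * (‖v‖ * Real.sqrt ‖v‖) := by
  set a : ℕ → ℝ := fun m : ℕ => (2 : ℝ) ^ m * (G (x + (1 / 2 : ℝ) ^ m • v) - G x) with ha
  set B : ℝ := C * (1 + ‖x‖) ^ q * (‖v‖ * Real.sqrt ‖v‖) with hB
  have hB0 : 0 ≤ B := by positivity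
  have hstep : ∀ m, dist (a m) (a (m + 1)) ≤ B * (3 / 4 : ℝ) ^ m := by
    intro m
    set w : E n := (1 / 2 : ℝ) ^ (m + 1) • v with hw
    have hwn : ‖w‖ = (1 / 2 : ℝ) ^ (m + 1) * ‖v‖ := by
      rw [hw, norm_smul, Real.norm_of_nonneg (by positivity)]
    have hw1 : ‖w‖ ≤ 1 := by
      rw [hwn]
      have h1 : (1 / 2 : ℝ) ^ (m + 1) ≤ 1 := pow_le_one₀ (by norm_num) (by norm_num)
      nlinarith [norm_nonneg v, pow_nonneg (show (0 : ℝ) ≤ 1 / 2 by norm_num) (m + 1)]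
    have hdw : (1 / 2 : ℝ) ^ m • v = w + w := by
      rw [hw, ← two_smul ℝ, smul_smul]
      congr 1
      rw [pow_succ]
      ring
    have hx : dist x (x + w) = ‖w‖ := by
      rw [dist_eq_norm, sub_add_cancel_left, norm_neg]
    have h1 := (hG w hw1).2 x (x + w) (by rw [hx]; exact hw1)
    rw [hx] at h1
    have h2 : a m - a (m + 1) = -((2 : ℝ) ^ m *
        ((fun x => G (x + w) - G x) x - (fun x => G (x + w) - G x) (x + w))) := by
      simp only [ha]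
      rw [hdw, ← hw, ← add_assoc, pow_succ]
      ring
    have h3 : Real.sqrt ((1 / 2 : ℝ) ^ (m + 1)) ≤ (3 / 4 : ℝ) ^ (m + 1) := by
      rw [show (1 / 2 : ℝ) ^ (m + 1) = (Real.sqrt (1 / 2) ^ (m + 1)) ^ 2 by
        rw [← pow_mul, mul_comm, pow_mul, Real.sq_sqrt (by norm_num)]]
      rw [Real.sqrt_sq (by positivity)]
      apply pow_le_pow_left₀ (Real.sqrt_nonneg _)
      rw [Real.sqrt_le_left (by norm_num)]
      norm_num
    rw [dist_eq_norm, h2, norm_neg, norm_mul, Real.norm_of_nonneg (by positivity : (0 : ℝ) ≤ 2 ^ m),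
      Real.norm_eq_abs]
    calc (2 : ℝ) ^ m * |(fun x => G (x + w) - G x) x - (fun x => G (x + w) - G x) (x + w)|
        ≤ (2 : ℝ) ^ m * (C * ‖w‖ * (1 + ‖x‖) ^ q * Real.sqrt ‖w‖) := by gcongr
      _ = (2 : ℝ) ^ m * (C * ((1 / 2 : ℝ) ^ (m + 1) * ‖v‖) * (1 + ‖x‖) ^ q *
          (Real.sqrt ((1 / 2 : ℝ) ^ (m + 1)) * Real.sqrt ‖v‖)) := by
            rw [hwn, Real.sqrt_mul (by positivity)]
      _ = (1 / 2) * B * Real.sqrt ((1 / 2 : ℝ) ^ (m + 1)) := by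
            rw [hB]
            have : (2 : ℝ) ^ m * (1 / 2) ^ (m + 1) = 1 / 2 := by
              rw [pow_succ, ← mul_assoc, ← mul_pow]
              norm_num
            linear_combination (C * ‖v‖ * (1 + ‖x‖) ^ q *
              (Real.sqrt ((1 / 2 : ℝ) ^ (m + 1)) * Real.sqrt ‖v‖)) * this
      _ ≤ (1 / 2) * B * (3 / 4 : ℝ) ^ (m + 1) := by gcongr
      _ ≤ B * (3 / 4 : ℝ) ^ m := by
            rw [pow_succ]
            nlinarith [mul_nonneg hB0 (pow_nonneg (show (0 : ℝ) ≤ 3 / 4 by norm_num) m)]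
  have hcs : CauchySeq a := cauchySeq_of_le_geometric _ _ (by norm_num) hstep
  obtain ⟨l, hl⟩ := cauchySeq_tendsto_of_complete hcs
  refine ⟨l, hl, ?_⟩
  have h4 := dist_le_of_le_geometric_of_tendsto₀ _ _ (by norm_num) hstep hl
  have h5 : a 0 = G (x + v) - G x := by simp [ha]
  rw [dist_eq_norm, h5, Real.norm_eq_abs] at h4
  refine h4.trans (le_of_eq ?_)
  rw [hB]
  ring

/-- The dyadic quotients converge, for all increments. -/
theorem pq_conv' {C : ℝ} {q : ℕ} {G : E n → ℝ} (hC : 0 ≤ C) (hG : PQ C q G) (x v : E n) :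
    ∃ l : ℝ, Tendsto (fun m : ℕ => (2 : ℝ) ^ m * (G (x + (1 / 2 : ℝ) ^ m • v) - G x)) atTop
        (𝓝 l) := by
  obtain ⟨k, hk⟩ : ∃ k : ℕ, ‖(1 / 2 : ℝ) ^ k • v‖ ≤ 1 := by
    have h1 : Tendsto (fun k : ℕ => ‖(1 / 2 : ℝ) ^ k • v‖) atTop (𝓝 ‖(0 : ℝ) • v‖) :=
      ((tendsto_pow_atTop_nhds_zero_of_lt_one (by norm_num) (by norm_num)).smul_const v).norm
    rw [zero_smul, norm_zero] at h1
    exact ((h1.eventually (ge_mem_nhds zero_lt_one))).exists
  obtain ⟨l, hl, -⟩ := pq_conv hC hG x _ hk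
  refine ⟨2 ^ k * l, ?_⟩
  rw [← tendsto_add_atTop_iff_nat k]
  have h2 := hl.const_mul ((2 : ℝ) ^ k)
  refine h2.congr fun m => ?_
  rw [smul_smul, ← pow_add, pow_add (2 : ℝ) m k]
  ring

/-- **The difference quotient lemma.** -/
theorem pq_diff {C : ℝ} {q : ℕ} {G : E n → ℝ} (hC : 0 ≤ C) (hG : PQ C q G) :
    Differentiable ℝ G ∧ ∀ i, PH C q (pd i G) := by
  have hpow : Tendsto (fun m : ℕ => (1 / 2 : ℝ) ^ m) atTop (𝓝 0) :=
    tendsto_pow_atTop_nhds_zero_of_lt_one (by norm_num) (by norm_num)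
  have hsm : ∀ v : E n, ∀ᶠ m : ℕ in atTop, ‖(1 / 2 : ℝ) ^ m • v‖ ≤ 1 := by
    intro v
    have h1 : Tendsto (fun k : ℕ => ‖(1 / 2 : ℝ) ^ k • v‖) atTop (𝓝 ‖(0 : ℝ) • v‖) :=
      (hpow.smul_const v).norm
    rw [zero_smul, norm_zero] at h1
    exact h1.eventually (ge_mem_nhds zero_lt_one)
  have hn : ∀ (m : ℕ) (v : E n), ‖(1 / 2 : ℝ) ^ m • v‖ = (1 / 2 : ℝ) ^ m * ‖v‖ := by
    intro m v
    rw [norm_smul, Real.norm_of_nonneg (by positivity)]
  have h2m : ∀ m : ℕ, (2 : ℝ) ^ m * (1 / 2) ^ m = 1 := by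
    intro m
    rw [← mul_pow]
    norm_num
  -- the limits
  choose L hL using fun x v => pq_conv' hC hG x v
  have hLb : ∀ x v, |L x v| ≤ C * (1 + ‖x‖) ^ q * ‖v‖ := by
    intro x v
    refine le_of_tendsto (hL x v).abs ?_
    filter_upwards [hsm v] with m hm
    have h1 := (hG _ hm).1 x
    rw [abs_mul, abs_of_nonneg (by positivity : (0 : ℝ) ≤ 2 ^ m)]
    calc (2 : ℝ) ^ m * |G (x + (1 / 2 : ℝ) ^ m • v) - G x|
        ≤ 2 ^ m * (C * ‖(1 / 2 : ℝ) ^ m • v‖ * (1 + ‖x‖) ^ q) := by gcongr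
      _ = C * (1 + ‖x‖) ^ q * ‖v‖ := by
          rw [hn]
          linear_combination (C * ‖v‖ * (1 + ‖x‖) ^ q) * h2m m
  have hLh : ∀ x y v, dist x y ≤ 1 →
      |L x v - L y v| ≤ C * (1 + ‖x‖) ^ q * ‖v‖ * Real.sqrt (dist x y) := by
    intro x y v hxy
    refine le_of_tendsto ((hL x v).sub (hL y v)).abs ?_
    filter_upwards [hsm v] with m hm
    have h1 := (hG _ hm).2 x y hxy
    rw [← mul_sub, abs_mul, abs_of_nonneg (by positivity : (0 : ℝ) ≤ 2 ^ m)]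
    calc (2 : ℝ) ^ m * |G (x + (1 / 2 : ℝ) ^ m • v) - G x - (G (y + (1 / 2 : ℝ) ^ m • v) - G y)|
        ≤ 2 ^ m * (C * ‖(1 / 2 : ℝ) ^ m • v‖ * (1 + ‖x‖) ^ q * Real.sqrt (dist x y)) := by
          gcongr
      _ = C * (1 + ‖x‖) ^ q * ‖v‖ * Real.sqrt (dist x y) := by
          rw [hn]
          linear_combination (C * ‖v‖ * (1 + ‖x‖) ^ q * Real.sqrt (dist x y)) * h2m m
  have hLa : ∀ x v w, L x (v + w) = L x v + L x w := by
    intro x v w
    have h1 := ((hL x (v + w)).sub (hL x v)).sub (hL x w)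
    have h2 : Tendsto (fun m : ℕ => C * (1 + ‖x‖) ^ q * ‖w‖ *
        Real.sqrt ((1 / 2 : ℝ) ^ m * ‖v‖)) atTop (𝓝 0) := by
      have h3 : Tendsto (fun m : ℕ => (1 / 2 : ℝ) ^ m * ‖v‖) atTop (𝓝 (0 * ‖v‖)) :=
        hpow.mul_const _
      have h4 := (Real.continuous_sqrt.tendsto _).comp h3
      have h5 := h4.const_mul (C * (1 + ‖x‖) ^ q * ‖w‖)
      simpa using h5
    have h3 := squeeze_zero_norm' (f := fun m : ℕ =>
      (2 : ℝ) ^ m * (G (x + (1 / 2 : ℝ) ^ m • (v + w)) - G x) -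
        (2 : ℝ) ^ m * (G (x + (1 / 2 : ℝ) ^ m • v) - G x) -
        (2 : ℝ) ^ m * (G (x + (1 / 2 : ℝ) ^ m • w) - G x)) ?_ h2
    · have h4 := tendsto_nhds_unique h1 h3
      linarith
    · filter_upwards [hsm v, hsm w] with m hm hm'
      have hx : dist x (x + (1 / 2 : ℝ) ^ m • v) = (1 / 2 : ℝ) ^ m * ‖v‖ := by
        rw [dist_eq_norm, sub_add_cancel_left, norm_neg, hn]
      have h5 := (hG _ hm').2 x (x + (1 / 2 : ℝ) ^ m • v) (by rw [hx, ← hn]; exact hm)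
      rw [hx, abs_sub_comm] at h5
      have h6 : (2 : ℝ) ^ m * (G (x + (1 / 2 : ℝ) ^ m • (v + w)) - G x) -
          (2 : ℝ) ^ m * (G (x + (1 / 2 : ℝ) ^ m • v) - G x) -
          (2 : ℝ) ^ m * (G (x + (1 / 2 : ℝ) ^ m • w) - G x) =
          (2 : ℝ) ^ m * (G (x + (1 / 2 : ℝ) ^ m • v + (1 / 2 : ℝ) ^ m • w) -
            G (x + (1 / 2 : ℝ) ^ m • v) - (G (x + (1 / 2 : ℝ) ^ m • w) - G x)) := by
        rw [smul_add, add_assoc]
        ring
      rw [h6, norm_mul, Real.norm_of_nonneg (by positivity : (0 : ℝ) ≤ 2 ^ m), Real.norm_eq_abs]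
      calc (2 : ℝ) ^ m * |G (x + (1 / 2 : ℝ) ^ m • v + (1 / 2 : ℝ) ^ m • w) -
            G (x + (1 / 2 : ℝ) ^ m • v) - (G (x + (1 / 2 : ℝ) ^ m • w) - G x)|
          ≤ 2 ^ m * (C * ‖(1 / 2 : ℝ) ^ m • w‖ * (1 + ‖x‖) ^ q *
            Real.sqrt ((1 / 2 : ℝ) ^ m * ‖v‖)) := by gcongr
        _ = C * (1 + ‖x‖) ^ q * ‖w‖ * Real.sqrt ((1 / 2 : ℝ) ^ m * ‖v‖) := by
          rw [hn]
          linear_combination (C * ‖w‖ * (1 + ‖x‖) ^ q *
            Real.sqrt ((1 / 2 : ℝ) ^ m * ‖v‖)) * h2m m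
  -- the derivative
  let A : E n → (E n →+ ℝ) := fun x => AddMonoidHom.mk' (L x) (hLa x)
  have hA : ∀ x, Continuous (A x) := fun x =>
    AddMonoidHomClass.continuous_of_bound (A x) (C * (1 + ‖x‖) ^ q) fun v => by
      rw [Real.norm_eq_abs]
      exact hLb x v
  let D : E n → (E n →L[ℝ] ℝ) := fun x => (A x).toRealLinearMap (hA x)
  have hD : ∀ x v, D x v = L x v := fun x v => rfl
  have hF : ∀ x, HasFDerivAt G (D x) x := by
    intro x
    rw [hasFDerivAt_iff_isLittleO_nhds_zero, Asymptotics.isLittleO_iff]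
    intro c hc
    set K : ℝ := 4 * C * (1 + ‖x‖) ^ q with hK
    have hK0 : 0 ≤ K := by positivity
    have h1 : Tendsto (fun v : E n => K * Real.sqrt ‖v‖) (𝓝 0) (𝓝 0) := by
      have h2 : Continuous fun v : E n => K * Real.sqrt ‖v‖ := by fun_prop
      have h3 := h2.tendsto 0
      simpa using h3
    have h4 : ∀ᶠ v : E n in 𝓝 0, ‖v‖ ≤ 1 := by
      have h5 : Tendsto (fun v : E n => ‖v‖) (𝓝 0) (𝓝 0) := by
        simpa using (continuous_norm.tendsto (0 : E n))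
      exact h5.eventually (ge_mem_nhds zero_lt_one)
    filter_upwards [h4, h1.eventually (ge_mem_nhds hc)] with v hv hv'
    obtain ⟨l, hl, hl'⟩ := pq_conv hC hG x v hv
    have h5 : l = L x v := tendsto_nhds_unique hl (hL x v)
    rw [hD, Real.norm_eq_abs, ← h5]
    refine hl'.trans ?_
    rw [← hK]
    calc K * (‖v‖ * Real.sqrt ‖v‖) = (K * Real.sqrt ‖v‖) * ‖v‖ := by ring
      _ ≤ c * ‖v‖ := by gcongr
  refine ⟨fun x => (hF x).differentiableAt, fun i => ?_⟩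
  have hpd : ∀ x, pd i G x = L x (EuclideanSpace.single i (1 : ℝ)) := by
    intro x
    rw [pd, (hF x).fderiv, hD]
  have hs1 : ‖(EuclideanSpace.single i (1 : ℝ) : E n)‖ = 1 := by simp
  constructor
  · intro x
    rw [hpd]
    have h1 := hLb x (EuclideanSpace.single i (1 : ℝ))
    rw [hs1, mul_one] at h1
    exact h1
  · intro x y hxy
    rw [hpd, hpd]
    have h1 := hLh x y (EuclideanSpace.single i (1 : ℝ)) hxy
    rw [hs1, mul_one] at h1
    exact h1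

end CM
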